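import Mathlib
import Pool.Agent.Q43.CV.Pell

set_option autoImplicit false

/-!
# The negative Pell equation with a real parameter: both coordinates prime, and repulsion

For a real number `y > 0` let `P y n` and `R y n` be defined by
`P y n + R y n √(y² + 1) = (y + √(y² + 1)) ^ n`, so that `(P y n)² - (y² + 1) (R y n)² = (-1) ^ n`.  For
`y = 1` and odd `n` these are the solutions of the equation `p² - 2 r² = -1` of the problem.  For a real
sequence `s` and a prime `p` let `W s p` be the `p`-rough part (the product, with multiplicity, of the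
prime factors larger than `p`) of `⌊s p⌋`; for `y = 1` and the primes `p ≥ 5` the rough parts of
`P 1 p` and of `R 1 p` are `P 1 p` and `R 1 p` themselves.  We prove for every positive `C ^ 2` function
`A` on `(0, ∞)`, for example `A = 1`, and the two sequences `A y * P y n / P y 1` and `A y * R y n`:

* for almost every `y > 0` there are only finitely many primes `p` for which both rough parts are prime;
* repulsion: for every set `E` of pairs of primes `p < q` with a finite sum of the weights
  `(log p / p) (log q / q)`, for almost every `y > 0` and for each of the two sequences, there are only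
  finitely many pairs `(p, q)` in `E` for which both `W s p` and `W s q` are prime; for example, for all
  large primes `p < q` with `W s p` and `W s q` prime, `q > p + p / (log p) ^ (1 + ε)`.
-/

namespace Pool.Agent.Results.MP_927e73_nt.BothCoordinates

open Filter Topology MeasureTheory

/-- The product, with multiplicity, of the prime factors of `m` that are larger than `p`. -/
def roughPart (p m : ℕ) : ℕ := (m.primeFactorsList.filter (fun r => p < r)).prod

/-- The `p`-rough part of the integer part of the term `s p` of a real sequence. -/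
noncomputable def W (s : ℕ → ℝ) (p : ℕ) : ℕ := roughPart p ⌊s p⌋₊

/-- The first coordinates. -/
noncomputable def P (y : ℝ) : ℕ → ℝ
  | 0 => 1
  | 1 => y
  | (n + 2) => 2 * y * P y (n + 1) + P y n

/-- The second coordinates. -/
noncomputable def R (y : ℝ) : ℕ → ℝ
  | 0 => 0
  | 1 => 1
  | (n + 2) => 2 * y * R y (n + 1) + R y n

/-- The weight of a level. -/
noncomputable def wt (p : ℕ) : ℝ := Real.log p / p

/-- Repulsion for the sequence `s` and the set `E` of pairs. -/
structure Repulsion (s : ℕ → ℝ) (E : Set (ℕ × ℕ)) : Prop where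
  /-- only finitely many pairs in `E` occur -/
  pairs : {x ∈ E | (W s x.1).Prime ∧ (W s x.2).Prime}.Finite
  /-- the gaps -/
  gaps : ∀ ε : ℝ, 0 < ε → ∃ p₀ : ℕ, ∀ p q : ℕ, p₀ ≤ p → p < q → p.Prime → q.Prime →
    (W s p).Prime → (W s q).Prime → (p : ℝ) + p / Real.log p ^ (1 + ε) < q

lemma P_eq (y : ℝ) (n : ℕ) : P y n = Pool.Agent.Q43.CV.PX y n := by
  induction n using Nat.twoStepInduction with
  | zero => rfl
  | one => rfl
  | more n h1 h2 => rw [P, h1, h2]; rfl

lemma R_eq (y : ℝ) (n : ℕ) : R y n = Pool.Agent.Q43.CV.PY y n := by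
  induction n using Nat.twoStepInduction with
  | zero => rfl
  | one => rfl
  | more n h1 h2 => rw [R, h1, h2]; rfl

lemma rep_of {s : ℕ → ℝ} {E : Set (ℕ × ℕ)} (h : Pool.Agent.Q43.CV.Rep (fun p => ⌊s p⌋₊) E ∧
    Pool.Agent.Q43.CV.Gaps (fun p => ⌊s p⌋₊)) : Repulsion s E := ⟨h.1, h.2⟩

/-- The real Pell sequences; for almost every parameter both coordinates are prime only finitely often,
and the prime values of each coordinate repel each other. -/
theorem result :
    (∀ (y : ℝ) (n : ℕ), P y n + R y n * Real.sqrt (y ^ 2 + 1) = (y + Real.sqrt (y ^ 2 + 1)) ^ n ∧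
      P y n ^ 2 - (y ^ 2 + 1) * R y n ^ 2 = (-1) ^ n) ∧
    (∀ n : ℕ, ∃ a b : ℕ, P 1 n = a ∧ R 1 n = b) ∧
    (∀ p : ℕ, p.Prime → 5 ≤ p → (W (P 1) p : ℝ) = P 1 p ∧ (W (R 1) p : ℝ) = R 1 p) ∧
    (∀ A : ℝ → ℝ, ContDiffOn ℝ 2 A (Set.Ioi 0) → (∀ y, 0 < y → 0 < A y) →
      (∀ᵐ y : ℝ, 0 < y → {p : ℕ | p.Prime ∧ (W (fun n => A y * (P y n / P y 1)) p).Prime ∧
        (W (fun n => A y * R y n) p).Prime}.Finite) ∧
      ∀ E : Set (ℕ × ℕ), (∀ x ∈ E, x.1.Prime ∧ x.2.Prime ∧ x.1 < x.2) →
        (Summable fun x : E => wt x.1.1 * wt x.1.2) →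
        ∀ᵐ y : ℝ, 0 < y → Repulsion (fun n => A y * (P y n / P y 1)) E ∧
          Repulsion (fun n => A y * R y n) E) := by
  have e1 : ∀ y, P y 1 = y := fun _ => rfl
  refine ⟨fun y n => ?_, fun n => ?_, fun p hp h5 => ?_, fun A hA hpos => ⟨?_, fun E hE hs => ?_⟩⟩
  · rw [P_eq, R_eq]
    exact ⟨Pool.Agent.Q43.CV.pell y n, Pool.Agent.Q43.CV.pell_norm y n⟩
  · exact ⟨_, _, (P_eq 1 n).trans (Pool.Agent.Q43.CV.PX_px n), (R_eq 1 n).trans (Pool.Agent.Q43.CV.PY_one n)⟩
  · constructor
    · have h := Pool.Agent.Q43.CV.rough_X hp h5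
      rw [P_eq, Pool.Agent.Q43.CV.PX_px]
      unfold W
      rw [P_eq]
      exact_mod_cast h
    · have h := Pool.Agent.Q43.CV.rough_Y hp h5
      rw [R_eq, Pool.Agent.Q43.CV.PY_one]
      unfold W
      rw [R_eq]
      exact_mod_cast h
  · filter_upwards [Pool.Agent.Q43.CV.pell_joint hA hpos] with y hy h0
    simp only [e1, P_eq, R_eq]
    exact hy h0
  · filter_upwards [Pool.Agent.Q43.CV.pell_rep_X hA hpos E hE hs,
      Pool.Agent.Q43.CV.pell_rep_Y hA hpos E hE hs] with y g1 g2 h0
    simp only [e1, P_eq, R_eq]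
    exact ⟨rep_of (g1 h0), rep_of (g2 h0)⟩

end Pool.Agent.Results.MP_927e73_nt.BothCoordinates
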