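import Mathlib
import Pool.Agent.Q43.LC.HypAe
import Pool.Agent.Q267.DV.Fin2

/-!
# The negative Pell equation with a real parameter: infinitely many prime integer parts

For a real number `y > 0` let `P y n` and `R y n` be defined by
`P y n + R y n √(y² + 1) = (y + √(y² + 1)) ^ n`, so that `(P y n)² - (y² + 1) (R y n)² = (-1) ^ n`.  For
`y = 1` and odd `n` these are the solutions of the equation `p² - 2 r² = -1` of the problem.  For every
positive `C ^ 2` function `A` on `(0, ∞)`, every set `S` of indices with divergent sum of `1 / m` (for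
example the odd indices, or the prime indices) and almost every `y > 0` the integer parts of both `A y * P y m`
and `A y * R y m` are prime for infinitely many `m ∈ S`.  If the sum converges, then for almost every
`y > 0` they are prime for only finitely many `m ∈ S`.
-/

set_option autoImplicit false

namespace Pool.Agent.Results.MP_927e73_nt.EveryDivergentIndexSet

open MeasureTheory

/-- The first coordinates. -/
noncomputable def P (y : ℝ) : ℕ → ℝ
  | 0 => 1
  | 1 => y
  | (n + 2) => 2 * y * P y (n + 1) + P y n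

/-- The second coordinates. -/
noncomputable def R (y : ℝ) : ℕ → ℝ
  | 0 => 0
  | 1 => 1
  | (n + 2) => 2 * y * R y (n + 1) + R y n

lemma R_eq (t : ℝ) (n : ℕ) : R (1 * Real.sinh t) n = Pool.Agent.Q43.LC.FF (2 * Real.sinh t) n := by
  rw [one_mul]
  induction n using Nat.twoStepInduction with
  | zero => rfl
  | one => rfl
  | more n h1 h2 =>
    show 2 * Real.sinh t * R (Real.sinh t) (n + 1) + R (Real.sinh t) n = _
    rw [h1, h2]
    rfl

lemma P_eq (t : ℝ) (n : ℕ) :
    P (1 * Real.sinh t) n = 1 / 2 * Pool.Agent.Q43.LC.LL (2 * Real.sinh t) n := by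
  rw [one_mul]
  induction n using Nat.twoStepInduction with
  | zero =>
    show (1 : ℝ) = 1 / 2 * 2
    norm_num
  | one =>
    show Real.sinh t = 1 / 2 * (2 * Real.sinh t)
    ring
  | more n h1 h2 =>
    show 2 * Real.sinh t * P (Real.sinh t) (n + 1) + P (Real.sinh t) n =
      1 / 2 * (2 * Real.sinh t * Pool.Agent.Q43.LC.LL (2 * Real.sinh t) (n + 1) +
        Pool.Agent.Q43.LC.LL (2 * Real.sinh t) n)
    rw [h1, h2]
    ring

lemma R_eq' (y : ℝ) (n : ℕ) : Pool.Agent.W66C.lU (2 * y) n = R y n := by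
  induction n using Nat.twoStepInduction with
  | zero => rfl
  | one => rfl
  | more n h1 h2 =>
    show 2 * y * Pool.Agent.W66C.lU (2 * y) (n + 1) + Pool.Agent.W66C.lU (2 * y) n = _
    rw [h1, h2]
    rfl

lemma P_eq' (y : ℝ) (n : ℕ) : Pool.Agent.W66C.lV (2 * y) n = 2 * P y n := by
  induction n using Nat.twoStepInduction with
  | zero =>
    show (2 : ℝ) = 2 * 1
    norm_num
  | one =>
    show 2 * y = 2 * y
    rfl
  | more n h1 h2 =>
    show 2 * y * Pool.Agent.W66C.lV (2 * y) (n + 1) + Pool.Agent.W66C.lV (2 * y) n =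
      2 * (2 * y * P y (n + 1) + P y n)
    rw [h1, h2]
    ring

lemma ae_two {Q : ℝ → Prop} (h : ∀ᵐ x : ℝ, Q x) : ∀ᵐ y : ℝ, Q (2 * y) := by
  rw [ae_iff] at h ⊢
  have h1 : volume ((fun x : ℝ => x / 2) '' {x : ℝ | ¬ Q x}) = 0 :=
    addHaar_image_eq_zero_of_differentiableOn_of_addHaar_eq_zero volume
      (differentiable_id.div_const 2).differentiableOn h
  refine measure_mono_null ?_ h1
  intro y hy
  exact ⟨2 * y, hy, by ring⟩

lemma inf_of {S : Set ℕ} {v : ℕ → ℝ} (h : ∀ M : ℕ, ∃ m ∈ S, M ≤ m ∧ (⌊v m⌋₊).Prime) :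
    {m : ℕ | m ∈ S ∧ (⌊v m⌋₊).Prime}.Infinite := by
  refine Set.infinite_of_forall_exists_gt fun M => ?_
  obtain ⟨m, h2, h3, h4⟩ := h (M + 1)
  exact ⟨m, ⟨h2, h4⟩, by omega⟩

/-- The dichotomy: infinitely many prime values for almost every `y` if and only if the sum of `1 / m` over
the index set diverges. -/
theorem result :
    (∀ (y : ℝ) (n : ℕ), P y n + R y n * Real.sqrt (y ^ 2 + 1) = (y + Real.sqrt (y ^ 2 + 1)) ^ n ∧
      P y n ^ 2 - (y ^ 2 + 1) * R y n ^ 2 = (-1) ^ n) ∧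
    (∀ A : ℝ → ℝ, ContDiffOn ℝ 2 A (Set.Ioi 0) → (∀ y, 0 < y → 0 < A y) →
      ∀ S : Set ℕ, (¬ Summable fun m : S => 1 / ((m : ℕ) : ℝ)) →
        ∀ᵐ y : ℝ, 0 < y → {m : ℕ | m ∈ S ∧ (⌊A y * P y m⌋₊).Prime}.Infinite ∧
          {m : ℕ | m ∈ S ∧ (⌊A y * R y m⌋₊).Prime}.Infinite) ∧
    (∀ A : ℝ → ℝ, ContDiffOn ℝ 2 A (Set.Ioi 0) → (∀ y, 0 < y → 0 < A y) →
      ∀ S : Set ℕ, (Summable fun m : S => 1 / ((m : ℕ) : ℝ)) →
        ∀ᵐ y : ℝ, 0 < y → {m : ℕ | m ∈ S ∧ (⌊A y * P y m⌋₊).Prime}.Finite ∧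
          {m : ℕ | m ∈ S ∧ (⌊A y * R y m⌋₊).Prime}.Finite) := by
  refine ⟨fun y n => ?_, fun A hA hA0 S hS => ?_, fun A hA hA0 S hS => ?_⟩
  · have hs : Real.sqrt (y ^ 2 + 1) ^ 2 = y ^ 2 + 1 := Real.sq_sqrt (by positivity)
    set w := Real.sqrt (y ^ 2 + 1) with hw
    have h1 : ∀ n, P y n + R y n * w = (y + w) ^ n ∧ P y n - R y n * w = (y - w) ^ n := by
      intro n
      induction n using Nat.twoStepInduction with
      | zero => simp [P, R]
      | one => simp [P, R]
      | more n h1 h2 =>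
        obtain ⟨a1, a2⟩ := h1
        obtain ⟨b1, b2⟩ := h2
        have e1 : (y + w) ^ (n + 2) = 2 * y * (y + w) ^ (n + 1) + (y + w) ^ n := by
          rw [pow_succ, pow_succ]
          linear_combination (y + w) ^ n * hs
        have e2 : (y - w) ^ (n + 2) = 2 * y * (y - w) ^ (n + 1) + (y - w) ^ n := by
          rw [pow_succ, pow_succ]
          linear_combination (y - w) ^ n * hs
        constructor
        · show 2 * y * P y (n + 1) + P y n + (2 * y * R y (n + 1) + R y n) * w = _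
          rw [e1, ← a1, ← b1]
          ring
        · show 2 * y * P y (n + 1) + P y n - (2 * y * R y (n + 1) + R y n) * w = _
          rw [e2, ← a2, ← b2]
          ring
    obtain ⟨g1, g2⟩ := h1 n
    refine ⟨g1, ?_⟩
    have e3 : P y n ^ 2 - (y ^ 2 + 1) * R y n ^ 2 = (P y n + R y n * w) * (P y n - R y n * w) := by
      rw [← hs]
      ring
    rw [e3, g1, g2, ← mul_pow]
    congr 1
    linear_combination -hs
  · have hc : ContDiffOn ℝ 2 (fun x : ℝ => A (x / 2)) (Set.Ioi 0) :=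
      hA.comp (contDiff_id.div_const 2).contDiffOn fun x hx => by
        show 0 < x / 2
        exact half_pos hx
    have hp : ∀ x : ℝ, 0 < x → 0 < A (x / 2) := fun x hx => hA0 _ (half_pos hx)
    have hc2 : ContDiffOn ℝ 2 (fun x : ℝ => A (x / 2) / 2) (Set.Ioi 0) := hc.div_const 2
    have hp2 : ∀ x : ℝ, 0 < x → 0 < A (x / 2) / 2 := fun x hx => half_pos (hp x hx)
    filter_upwards [ae_two (Pool.Agent.Q267.DV.U_inf hc hp hS),
      ae_two (Pool.Agent.Q267.DV.V_inf hc2 hp2 hS)] with y h1 h2 hy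
    have e0 : 2 * y / 2 = y := by ring
    constructor
    · refine inf_of fun M => ?_
      obtain ⟨m, g1, g2, g3⟩ := h2 (by linarith) M
      refine ⟨m, g1, g2, ?_⟩
      simp only [e0, P_eq'] at g3
      have e1 : A y / 2 * (2 * P y m) = A y * P y m := by ring
      rwa [e1] at g3
    · refine inf_of fun M => ?_
      obtain ⟨m, g1, g2, g3⟩ := h1 (by linarith) M
      refine ⟨m, g1, g2, ?_⟩
      simp only [e0, R_eq'] at g3
      exact g3
  · have hA1 : ContDiffOn ℝ 1 A (Set.Ioi 0) := hA.of_le (by norm_num)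
    have h := Pool.Agent.Q43.LC.ae_sinh one_pos
      (Q := fun y => ∃ M : ℕ, ∀ m ∈ S, M ≤ m → ¬ (⌊A y * P y m⌋₊).Prime ∧ ¬ (⌊A y * R y m⌋₊).Prime) (by
      filter_upwards [Pool.Agent.Q43.LC.hyp_ae (Pool.Agent.Q43.LC.logC1_of hA1 hA0 one_pos)
        (Pool.Agent.Q43.LC.logC1_mul (Pool.Agent.Q43.LC.logC1_of hA1 hA0 one_pos) (c := 1 / 2)
          (by norm_num)) hS] with t ht ht0
      obtain ⟨M, hM⟩ := ht ht0
      refine ⟨M, fun m hm hge => ?_⟩
      obtain ⟨g1, g2⟩ := hM m hm hge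
      rw [P_eq, R_eq, ← mul_assoc]
      exact ⟨g2, g1⟩)
    filter_upwards [h] with y hy h1
    obtain ⟨M, hM⟩ := hy h1
    constructor
    · refine (Set.finite_lt_nat M).subset ?_
      rintro m ⟨h2, h3⟩
      by_contra hcon
      exact (hM m h2 (not_lt.1 hcon)).1 h3
    · refine (Set.finite_lt_nat M).subset ?_
      rintro m ⟨h2, h3⟩
      by_contra hcon
      exact (hM m h2 (not_lt.1 hcon)).2 h3

end Pool.Agent.Results.MP_927e73_nt.EveryDivergentIndexSet
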