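import Mathlib
import Pool.Agent.Q43.CV.Pell

set_option autoImplicit false

/-!
# The negative Pell equation with a real parameter: the indices of the prime coordinates

For a real number `y > 0` let `P y n` and `R y n` be defined by
`P y n + R y n √(y² + 1) = (y + √(y² + 1)) ^ n`, so that `(P y n)² - (y² + 1) (R y n)² = (-1) ^ n`.  For
`y = 1` and odd `n` these are the solutions of the equation `p² - 2 r² = -1` of the problem.  For a real
sequence `s` let `Pr s` be the set of the primes `p` for which the `p`-rough part (the product, with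
multiplicity, of the prime factors larger than `p`) of `⌊s p⌋` is prime; for `y = 1` and the primes
`p ≥ 5` the rough parts of `P 1 p` and of `R 1 p` are `P 1 p` and `R 1 p` themselves.  For a set `T` of
primes let `M T S n` be the number of the primes `p ≤ n` in `T` and in `S`, and let `V S n` be the sum of
`log p / p` over the primes `p ≤ n` in `S`.  We prove for every positive `C ^ 2` function `A` on `(0, ∞)`,
every set `S` and almost every `y > 0`, with `κ = e ^ γ / log (y + √(y² + 1))`: the sets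
`T = Pr (A y * P y n / P y 1)`, `T = Pr (A y * R y n)` and their union obey the law with the constants
`κ`, `κ` and `2 κ`, that is

* `M T S n = κ V S n + O((V K) ^ (1/2) (log (V K)) ^ 2)`, `K = log log n`, if `V S` is unbounded;
* `T ∩ S` is infinite if and only if `V S` is unbounded;
* for every `ε > 0`, for ALL moduli `q`, all classes `a` prime to `q` and all `n` simultaneously, the number
  of the primes `p ≤ n` in `T` with `p ≡ a (mod q)` is
  `κ log n / φ (q) + O (q ^ (1/2 + ε) (log n) ^ (1/2 + ε))`.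
-/

namespace Pool.Agent.Results.MP_927e73_nt.LawsForEitherCoordinate

open Filter Topology MeasureTheory Asymptotics

/-- The product, with multiplicity, of the prime factors of `m` that are larger than `p`. -/
def roughPart (p m : ℕ) : ℕ := (m.primeFactorsList.filter (fun r => p < r)).prod

/-- The first coordinates. -/
noncomputable def P (y : ℝ) : ℕ → ℝ
  | 0 => 1
  | 1 => y
  | (n + 2) => 2 * y * P y (n + 1) + P y n

/-- The second coordinates. -/
noncomputable def R (y : ℝ) : ℕ → ℝ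
  | 0 => 0
  | 1 => 1
  | (n + 2) => 2 * y * R y (n + 1) + R y n

/-- The primes `p` for which the `p`-rough part of `⌊s p⌋` is prime. -/
def Pr (s : ℕ → ℝ) : Set ℕ := {p | p.Prime ∧ (roughPart p ⌊s p⌋₊).Prime}

open Classical in
/-- The number of the elements `p ≤ n` of `T ∩ S`. -/
noncomputable def M (T S : Set ℕ) (n : ℕ) : ℕ := ((Finset.range (n + 1)).filter (fun p => p ∈ T ∧ p ∈ S)).card

open Classical in
/-- The sum of `log p / p` over the primes `p ≤ n` in the set `S`. -/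
noncomputable def V (S : Set ℕ) (n : ℕ) : ℝ :=
  ∑ p ∈ (Finset.range (n + 1)).filter (fun p => p.Prime ∧ p ∈ S), Real.log p / p

/-- The law with the constant `κ` for the set `T` of primes and the set `S`. -/
structure Law (T : Set ℕ) (κ : ℝ) (S : Set ℕ) : Prop where
  /-- the number of the elements in `S` -/
  sets : Tendsto (V S) atTop atTop → (fun n : ℕ => (M T S n : ℝ) - κ * V S n) =O[atTop]
    (fun n : ℕ => Real.sqrt (V S n * Real.log (Real.log n)) *
      (Real.log (V S n * Real.log (Real.log n))) ^ 2)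
  /-- the dichotomy -/
  dichotomy : (T ∩ S).Infinite ↔ Tendsto (V S) atTop atTop
  /-- the residue classes, uniformly in the modulus -/
  uniform : ∀ ε : ℝ, 0 < ε → ∃ B : ℝ, ∀ n : ℕ, 3 ≤ n → ∀ q a : ℕ, 1 ≤ q → a.Coprime q →
    |(M T {p | p ≡ a [MOD q]} n : ℝ) - κ * (Real.log n / Nat.totient q)| ≤
      B * ((q : ℝ) ^ (1 / 2 + ε) * Real.log n ^ (1 / 2 + ε))

lemma P_eq (y : ℝ) (n : ℕ) : P y n = Pool.Agent.Q43.CV.PX y n := by
  induction n using Nat.twoStepInduction with
  | zero => rfl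
  | one => rfl
  | more n h1 h2 => rw [P, h1, h2]; rfl

lemma R_eq (y : ℝ) (n : ℕ) : R y n = Pool.Agent.Q43.CV.PY y n := by
  induction n using Nat.twoStepInduction with
  | zero => rfl
  | one => rfl
  | more n h1 h2 => rw [R, h1, h2]; rfl

lemma V_eq (S : Set ℕ) : V S = Pool.Agent.TH888.R.VS S := by
  classical
  funext n
  unfold V Pool.Agent.TH888.R.VS
  rw [Finset.sum_filter]
  refine Finset.sum_congr rfl fun p _ => ?_
  by_cases h : p.Prime ∧ p ∈ S
  · rw [if_pos h, if_pos ⟨h.2, h.1⟩]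
    rfl
  · rw [if_neg h, if_neg fun h1 => h ⟨h1.2, h1.1⟩]

lemma M_eq (s : ℕ → ℝ) (S : Set ℕ) (n : ℕ) :
    M (Pr s) S n = Pool.Agent.TH888.R.cS S (fun p => ⌊s p⌋₊) n := by
  classical
  unfold M Pool.Agent.TH888.R.cS Pr
  congr 1
  ext p
  simp only [Finset.mem_filter, Set.mem_ofPred_eq]
  constructor
  · rintro ⟨h1, ⟨h2, h3⟩, h4⟩
    exact ⟨h1, h2, h4, h3⟩
  · rintro ⟨h1, h2, h3, h4⟩
    exact ⟨h1, ⟨h2, h4⟩, h3⟩

/-- the law for one coordinate from the library -/
lemma law_of {s : ℕ → ℝ} {κ : ℝ} {S : Set ℕ} (h1 : Pool.Agent.TH888.R.Pt (fun p => ⌊s p⌋₊) κ S)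
    (h2 : Pool.Agent.Q43.UN.UPt (fun p => ⌊s p⌋₊) κ) : Law (Pr s) κ S := by
  have hset : Pr s ∩ S = {p : ℕ | p.Prime ∧ p ∈ S ∧ (Pool.Agent.H305R2.roughPart p ⌊s p⌋₊).Prime} := by
    ext p
    constructor
    · rintro ⟨⟨a, b⟩, c⟩
      exact ⟨a, c, b⟩
    · rintro ⟨a, b, c⟩
      exact ⟨⟨a, c⟩, b⟩
  refine ⟨fun hS => ?_, ?_, fun ε hε => ?_⟩
  · rw [V_eq] at hS ⊢
    obtain ⟨B, hB, h⟩ := h1.law hS
    simp only [M_eq]
    exact Pool.Agent.TH888.R.bigO_set hB hS h
  · rw [V_eq, hset]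
    constructor
    · intro hi
      by_contra hn
      exact hi (h1.fin hn)
    · exact h1.inf
  · obtain ⟨B, _, hB⟩ := h2 ε hε
    refine ⟨B, fun n hn q a hq ha => ?_⟩
    rw [M_eq]
    exact hB n hn q a hq ha

open Classical in
/-- the number of the elements of a union with finite intersection -/
lemma M_union {T1 T2 : Set ℕ} (hfin : (T1 ∩ T2).Finite) (S : Set ℕ) (n : ℕ) :
    |(M (T1 ∪ T2) S n : ℝ) - (M T1 S n + M T2 S n)| ≤ hfin.toFinset.card := by
  have h1 : M (T1 ∪ T2) S n + ((Finset.range (n + 1)).filter (fun p => (p ∈ T1 ∧ p ∈ S) ∧ p ∈ T2 ∧ p ∈ S)).card =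
      M T1 S n + M T2 S n := by
    have h0 := Finset.card_union_add_card_inter ((Finset.range (n + 1)).filter (fun p => p ∈ T1 ∧ p ∈ S))
      ((Finset.range (n + 1)).filter (fun p => p ∈ T2 ∧ p ∈ S))
    rw [← Finset.filter_or, ← Finset.filter_and] at h0
    unfold M
    rw [← h0]
    congr 2
    ext p
    simp only [Finset.mem_filter, Set.mem_union]
    tauto
  have h2 : ((Finset.range (n + 1)).filter (fun p => (p ∈ T1 ∧ p ∈ S) ∧ p ∈ T2 ∧ p ∈ S)).card ≤
      hfin.toFinset.card := by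
    refine Finset.card_le_card fun p hp => ?_
    rw [Finset.mem_filter] at hp
    rw [Set.Finite.mem_toFinset]
    exact ⟨hp.2.1.1, hp.2.2.1⟩
  have h1' : (M (T1 ∪ T2) S n : ℝ) + (((Finset.range (n + 1)).filter
      (fun p => (p ∈ T1 ∧ p ∈ S) ∧ p ∈ T2 ∧ p ∈ S)).card : ℝ) = M T1 S n + M T2 S n := by exact_mod_cast h1
  have h2' : (((Finset.range (n + 1)).filter
      (fun p => (p ∈ T1 ∧ p ∈ S) ∧ p ∈ T2 ∧ p ∈ S)).card : ℝ) ≤ hfin.toFinset.card := by exact_mod_cast h2
  have h3 : (0 : ℝ) ≤ (((Finset.range (n + 1)).filter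
      (fun p => (p ∈ T1 ∧ p ∈ S) ∧ p ∈ T2 ∧ p ∈ S)).card : ℝ) := Nat.cast_nonneg _
  rw [abs_le]
  constructor <;> linarith

/-- the law for either coordinate -/
lemma law_union {s s' : ℕ → ℝ} {κ : ℝ} {S : Set ℕ}
    (h1 : Pool.Agent.TH888.R.Pt (fun p => ⌊s p⌋₊) κ S) (h2 : Pool.Agent.Q43.UN.UPt (fun p => ⌊s p⌋₊) κ)
    (h1' : Pool.Agent.TH888.R.Pt (fun p => ⌊s' p⌋₊) κ S) (h2' : Pool.Agent.Q43.UN.UPt (fun p => ⌊s' p⌋₊) κ)
    (hfin : (Pr s ∩ Pr s').Finite) : Law (Pr s ∪ Pr s') (2 * κ) S := by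
  have l1 := law_of h1 h2
  have l2 := law_of h1' h2'
  have hC : (0 : ℝ) ≤ hfin.toFinset.card := Nat.cast_nonneg _
  refine ⟨fun hS => ?_, ?_, fun ε hε => ?_⟩
  · rw [V_eq] at hS ⊢
    obtain ⟨B, hB, h⟩ := h1.law hS
    obtain ⟨B', hB', h'⟩ := h1'.law hS
    refine Pool.Agent.TH888.R.bigO_set (B := B + B' + hfin.toFinset.card) (by positivity) hS fun n hn => ?_
    have a1 := h n hn
    have a2 := h' n hn
    rw [← M_eq] at a1 a2
    have a3 := M_union hfin S n
    have hV := Pool.Agent.TH888.R.VS_nonneg S n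
    have hll : 0 ≤ 1 + Real.log (Real.log n) := by
      have hn3 : (3 : ℝ) ≤ n := by exact_mod_cast hn
      have hl : 1 ≤ Real.log n := by
        rw [Real.le_log_iff_exp_le (by linarith)]
        have := Real.exp_one_lt_d9
        linarith
      have := Real.log_nonneg hl
      linarith
    have a4 := Pool.Agent.TH888.R.one_le_gr (mul_nonneg hV hll)
    set g := Pool.Agent.TH888.R.gr (Pool.Agent.TH888.R.VS S n * (1 + Real.log (Real.log n)))
    have a5 : (hfin.toFinset.card : ℝ) ≤ hfin.toFinset.card * g := le_mul_of_one_le_right hC a4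
    rw [abs_le] at a1 a2 a3 ⊢
    constructor <;> nlinarith [a1.1, a1.2, a2.1, a2.2, a3.1, a3.2]
  · rw [Set.union_inter_distrib_right, Set.infinite_union, l1.dichotomy, l2.dichotomy, or_self]
  · obtain ⟨B, hB⟩ := l1.uniform ε hε
    obtain ⟨B', hB'⟩ := l2.uniform ε hε
    refine ⟨B + B' + hfin.toFinset.card, fun n hn q a hq ha => ?_⟩
    have a1 := hB n hn q a hq ha
    have a2 := hB' n hn q a hq ha
    have a3 := M_union hfin {p | p ≡ a [MOD q]} n
    have hn3 : (3 : ℝ) ≤ n := by exact_mod_cast hn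
    have hl : 1 ≤ Real.log n := by
      rw [Real.le_log_iff_exp_le (by linarith)]
      have := Real.exp_one_lt_d9
      linarith
    have hq1 : (1 : ℝ) ≤ q := by exact_mod_cast hq
    have a4 : 1 ≤ (q : ℝ) ^ (1 / 2 + ε) * Real.log n ^ (1 / 2 + ε) :=
      one_le_mul_of_one_le_of_one_le (Real.one_le_rpow hq1 (by positivity)) (Real.one_le_rpow hl (by positivity))
    set g := (q : ℝ) ^ (1 / 2 + ε) * Real.log n ^ (1 / 2 + ε)
    have a5 : (hfin.toFinset.card : ℝ) ≤ hfin.toFinset.card * g := le_mul_of_one_le_right hC a4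
    rw [abs_le] at a1 a2 a3 ⊢
    constructor <;> nlinarith [a1.1, a1.2, a2.1, a2.2, a3.1, a3.2]

/-- The real Pell sequences; for almost every parameter the sets of the indices of the prime values of
the first coordinate, of the second coordinate, and of at least one of them obey the law. -/
theorem result :
    (∀ (y : ℝ) (n : ℕ), P y n + R y n * Real.sqrt (y ^ 2 + 1) = (y + Real.sqrt (y ^ 2 + 1)) ^ n ∧
      P y n ^ 2 - (y ^ 2 + 1) * R y n ^ 2 = (-1) ^ n) ∧
    (∀ p : ℕ, p.Prime → 5 ≤ p → ∃ a b : ℕ, P 1 p = a ∧ R 1 p = b ∧ roughPart p a = a ∧ roughPart p b = b) ∧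
    (∀ A : ℝ → ℝ, ContDiffOn ℝ 2 A (Set.Ioi 0) → (∀ y, 0 < y → 0 < A y) → ∀ S : Set ℕ,
      ∀ᵐ y : ℝ, 0 < y → ∀ κ : ℝ, κ = Real.exp Real.eulerMascheroniConstant / Real.log (y + Real.sqrt (y ^ 2 + 1)) →
        Law (Pr (fun n => A y * (P y n / P y 1))) κ S ∧ Law (Pr (fun n => A y * R y n)) κ S ∧
        Law (Pr (fun n => A y * (P y n / P y 1)) ∪ Pr (fun n => A y * R y n)) (2 * κ) S) := by
  have e1 : ∀ y, P y 1 = y := fun _ => rfl
  refine ⟨fun y n => ?_, fun p hp h5 => ?_, fun A hA hpos S => ?_⟩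
  · rw [P_eq, R_eq]
    exact ⟨Pool.Agent.Q43.CV.pell y n, Pool.Agent.Q43.CV.pell_norm y n⟩
  · refine ⟨_, _, (P_eq 1 p).trans (Pool.Agent.Q43.CV.PX_px p), (R_eq 1 p).trans (Pool.Agent.Q43.CV.PY_one p), ?_, ?_⟩
    · have h := Pool.Agent.Q43.CV.rough_X hp h5
      rw [Pool.Agent.Q43.CV.PX_px, Nat.floor_natCast] at h
      exact h
    · have h := Pool.Agent.Q43.CV.rough_Y hp h5
      rw [Pool.Agent.Q43.CV.PY_one, Nat.floor_natCast] at h
      exact h
  · filter_upwards [Pool.Agent.Q43.CV.pell_joint hA hpos, Pool.Agent.Q43.CV.pell_pt hA hpos S,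
      Pool.Agent.Q43.CV.pell_upt hA hpos] with y g1 g2 g3 h0 κ hκ
    obtain ⟨a1, a2⟩ := g2 h0
    obtain ⟨b1, b2⟩ := g3 h0
    rw [← hκ] at a1 a2 b1 b2
    have hfin : (Pr (fun n => A y * (P y n / P y 1)) ∩ Pr (fun n => A y * R y n)).Finite := by
      refine (g1 h0).subset ?_
      rintro p ⟨⟨h1, h2⟩, ⟨_, h3⟩⟩
      simp only [e1, P_eq, R_eq] at h2 h3
      exact ⟨h1, h2, h3⟩
    simp only [e1, P_eq, R_eq] at hfin ⊢
    exact ⟨law_of a1 b1, law_of a2 b2, law_union a1 b1 a2 b2 hfin⟩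

end Pool.Agent.Results.MP_927e73_nt.LawsForEitherCoordinate
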