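import Mathlib
import Pool.Agent.Q288.VC.Hyp

/-!
# The negative Pell equation with a real parameter: prescribed prime and composite indices

For a real number `y > 0` let `P y n` and `R y n` be defined by
`P y n + R y n √(y² + 1) = (y + √(y² + 1)) ^ n`. For `y = 1` and odd `n` these are the solutions of
the equation `p² - 2 r² = -1` of the problem. For disjoint sets `S`, `T` of indices with a lacunary
union every set of indices is the set of the `m ∈ S` with the integer part of `P y m` prime and of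
the `m ∈ T` with that of `R y m` prime, up to finitely many indices, for a set of `y` of dimension
`1` in every interval.
-/

set_option autoImplicit false

namespace Pool.Agent.Results.MP_927e73_nt.PrescribedIndices

open Filter Pool.Agent.Q288.VC

/-- The first coordinates. -/
noncomputable def P (y : ℝ) : ℕ → ℝ
  | 0 => 1
  | 1 => y
  | (n + 2) => 2 * y * P y (n + 1) + P y n

/-- The second coordinates. -/
noncomputable def R (y : ℝ) : ℕ → ℝ
  | 0 => 0
  | 1 => 1
  | (n + 2) => 2 * y * R y (n + 1) + R y n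

/-- Any two elements `m < n` of the set satisfy `C m ≤ n`. -/
def Lacunary (C : ℕ) (S : Set ℕ) : Prop := ∀ m ∈ S, ∀ n ∈ S, m < n → C * m ≤ n

/-- The function is positive and continuously differentiable on the positive half-line. -/
def PosC1 (A : ℝ → ℝ) : Prop := ContDiffOn ℝ 1 A (Set.Ioi 0) ∧ ∀ y, 0 < y → 0 < A y

lemma R_eq (t : ℝ) (n : ℕ) : R (1 * Real.sinh t) n = Pool.Agent.Q43.LC.FF (2 * Real.sinh t) n := by
  rw [one_mul]
  induction n using Nat.twoStepInduction with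
  | zero => rfl
  | one => rfl
  | more n h1 h2 =>
    show 2 * Real.sinh t * R (Real.sinh t) (n + 1) + R (Real.sinh t) n = _
    rw [h1, h2]
    rfl

lemma P_eq (t : ℝ) (n : ℕ) :
    P (1 * Real.sinh t) n = 1 / 2 * Pool.Agent.Q43.LC.LL (2 * Real.sinh t) n := by
  rw [one_mul]
  induction n using Nat.twoStepInduction with
  | zero =>
    show (1 : ℝ) = 1 / 2 * 2
    norm_num
  | one =>
    show Real.sinh t = 1 / 2 * (2 * Real.sinh t)
    ring
  | more n h1 h2 =>
    show 2 * Real.sinh t * P (Real.sinh t) (n + 1) + P (Real.sinh t) n =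
      1 / 2 * (2 * Real.sinh t * Pool.Agent.Q43.LC.LL (2 * Real.sinh t) (n + 1) +
        Pool.Agent.Q43.LC.LL (2 * Real.sinh t) n)
    rw [h1, h2]
    ring

lemma P_cont (n : ℕ) : Continuous fun y => P y n := by
  induction n using Nat.twoStepInduction with
  | zero => exact continuous_const
  | one => exact continuous_id
  | more n h1 h2 => exact ((continuous_const.mul continuous_id).mul h2).add h1

lemma R_cont (n : ℕ) : Continuous fun y => R y n := by
  induction n using Nat.twoStepInduction with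
  | zero => exact continuous_const
  | one => exact continuous_const
  | more n h1 h2 => exact ((continuous_const.mul continuous_id).mul h2).add h1

lemma P_mono {x y : ℝ} (hx : 0 < x) (hxy : x < y) (n : ℕ) :
    (0 < P x n ∧ P x n ≤ P y n) ∧ 0 < P x (n + 1) ∧ P x (n + 1) < P y (n + 1) := by
  induction n with
  | zero => exact ⟨⟨one_pos, le_rfl⟩, hx, hxy⟩
  | succ n ih =>
    obtain ⟨⟨h1, h2⟩, h3, h4⟩ := ih
    refine ⟨⟨h3, h4.le⟩, ?_, ?_⟩
    · show 0 < 2 * x * P x (n + 1) + P x n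
      positivity
    · show 2 * x * P x (n + 1) + P x n < 2 * y * P y (n + 1) + P y n
      have : 2 * x * P x (n + 1) < 2 * y * P y (n + 1) :=
        mul_lt_mul'' (by linarith) h4 (by positivity) h3.le
      linarith

lemma R_mono {x y : ℝ} (hx : 0 < x) (hxy : x < y) (n : ℕ) :
    (0 ≤ R x n ∧ R x n ≤ R y n) ∧ (0 < R x (n + 1) ∧ R x (n + 1) ≤ R y (n + 1)) ∧
      R x (n + 2) < R y (n + 2) := by
  induction n with
  | zero =>
    refine ⟨⟨le_rfl, le_rfl⟩, ⟨one_pos, le_rfl⟩, ?_⟩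
    show 2 * x * 1 + 0 < 2 * y * 1 + 0
    linarith
  | succ n ih =>
    obtain ⟨⟨h1, h2⟩, ⟨h3, h4⟩, h5⟩ := ih
    have h6 : 0 < R x (n + 2) := by
      show 0 < 2 * x * R x (n + 1) + R x n
      positivity
    refine ⟨⟨h3.le, h4⟩, ⟨h6, h5.le⟩, ?_⟩
    show 2 * x * R x (n + 2) + R x (n + 1) < 2 * y * R y (n + 2) + R y (n + 1)
    have : 2 * x * R x (n + 2) < 2 * y * R y (n + 2) :=
      mul_lt_mul'' (by linarith) h5 (by positivity) h6.le
    linarith

lemma P_nonneg {x : ℝ} (hx : 0 < x) (n : ℕ) : 0 ≤ P x n :=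
  (P_mono hx (lt_add_one x) n).1.1.le

lemma R_nonneg {x : ℝ} (hx : 0 < x) (n : ℕ) : 0 ≤ R x n :=
  (R_mono hx (lt_add_one x) n).1.1

/-- There is an absolute constant `C` such that for all disjoint sets `S`, `T` of indices whose union
has ratios at least `C`: (1) for all positive `C¹` functions `A`, `B` on `(0, ∞)`, every set `U` and
`0 ≤ a < b` the set of the `y` in `(a, b)` for which, for all large `m`, `⌊A(y) P(y,m)⌋` (if `m ∈ S`)
resp. `⌊B(y) R(y,m)⌋` (if `m ∈ T`) is prime if and only if `m ∈ U`, has Hausdorff dimension one;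
(2) the same for the set of the `y` with `⌊A(y) P(y,m)⌋ + c m` prime for all large `m ∈ S` and
`⌊B(y) R(y,m)⌋ + c m` prime for all large `m ∈ T`, where `c` is a bounded sequence of natural
numbers; (3) for every `U` and every function `g`, for all `y > 0` outside a meagre set there are
infinitely many `k` such that, for all `m` from `k` to `g k`, `⌊P(y,m)⌋` (if `m ∈ S`) resp.
`⌊R(y,m)⌋` (if `m ∈ T`) is prime if and only if `m ∈ U`. -/
theorem result : ∃ C : ℕ, 2 ≤ C ∧ ∀ S T : Set ℕ, Disjoint S T → Lacunary C (S ∪ T) →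
    (∀ A B : ℝ → ℝ, PosC1 A → PosC1 B → ∀ U : Set ℕ, ∀ a b : ℝ, 0 ≤ a → a < b →
      dimH {y : ℝ | a < y ∧ y < b ∧ ∃ M : ℕ,
        (∀ m ∈ S, M ≤ m → ((⌊A y * P y m⌋₊).Prime ↔ m ∈ U)) ∧
        (∀ m ∈ T, M ≤ m → ((⌊B y * R y m⌋₊).Prime ↔ m ∈ U))} = 1) ∧
    (∀ A B : ℝ → ℝ, PosC1 A → PosC1 B → ∀ c : ℕ → ℕ, (∃ K, ∀ m, c m ≤ K) →
      ∀ a b : ℝ, 0 ≤ a → a < b →
      dimH {y : ℝ | a < y ∧ y < b ∧ ∃ M : ℕ,
        (∀ m ∈ S, M ≤ m → (⌊A y * P y m⌋₊ + c m).Prime) ∧
        (∀ m ∈ T, M ≤ m → (⌊B y * R y m⌋₊ + c m).Prime)} = 1) ∧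
    (∀ U : Set ℕ, ∀ g : ℕ → ℕ, ∀ᶠ y : ℝ in residual ℝ, 0 < y → ∀ K : ℕ, ∃ k, K ≤ k ∧
      (∀ m ∈ S, k ≤ m → m ≤ g k → ((⌊P y m⌋₊).Prime ↔ m ∈ U)) ∧
      (∀ m ∈ T, k ≤ m → m ≤ g k → ((⌊R y m⌋₊).Prime ↔ m ∈ U))) := by
  classical
  obtain ⟨C, hC2, hC⟩ := hyp_c
  refine ⟨C, hC2, fun S T hST hlac => ?_⟩
  have two : ∀ A B : ℝ → ℝ, PosC1 A → PosC1 B → ∀ c : ℕ → ℕ, (∃ K, ∀ m, c m ≤ K) →
      ∀ a b : ℝ, 0 ≤ a → a < b →
      dimH {y : ℝ | a < y ∧ y < b ∧ ∃ M : ℕ,
        (∀ m ∈ S, M ≤ m → (⌊A y * P y m⌋₊ + c m).Prime) ∧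
        (∀ m ∈ T, M ≤ m → (⌊B y * R y m⌋₊ + c m).Prime)} = 1 := by
    rintro A B ⟨hA, hA0⟩ ⟨hB, hB0⟩ c ⟨K, hK⟩ a b ha hab
    refine Pool.Agent.Q43.LC.dim_sinh one_pos ha hab fun b0 b1 h0 h1 => ?_
    refine (hC _ _ (Pool.Agent.Q43.LC.logC1_of hB hB0 one_pos)
      (Pool.Agent.Q43.LC.logC1_mul (Pool.Agent.Q43.LC.logC1_of hA hA0 one_pos) (c := 1 / 2)
        (by norm_num)) c K hK
      T S hST.symm (by rwa [Set.union_comm]) b0 b1 h0 h1).trans (dimH_mono ?_)
    rintro t ⟨t0, t1, M, h2, h3⟩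
    have hs : 0 < 1 * Real.sinh t := by
      rw [one_mul]
      exact Real.sinh_pos_iff.2 (h0.trans t0)
    refine ⟨t0, t1, M, fun m hm hge => ?_, fun m hm hge => ?_⟩
    · have h4 := h3 m hm hge
      rw [mul_assoc, ← P_eq, Nat.floor_add_natCast
        (mul_nonneg (hA0 _ hs).le (P_nonneg hs m))] at h4
      exact h4
    · have h4 := h2 m hm hge
      rw [← R_eq, Nat.floor_add_natCast (mul_nonneg (hB0 _ hs).le (R_nonneg hs m))] at h4
      exact h4
  have one : ∀ A B : ℝ → ℝ, PosC1 A → PosC1 B → ∀ U : Set ℕ, ∀ a b : ℝ, 0 ≤ a → a < b →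
      dimH {y : ℝ | a < y ∧ y < b ∧ ∃ M : ℕ,
        (∀ m ∈ S, M ≤ m → ((⌊A y * P y m⌋₊).Prime ↔ m ∈ U)) ∧
        (∀ m ∈ T, M ≤ m → ((⌊B y * R y m⌋₊).Prime ↔ m ∈ U))} = 1 := by
    intro A B hA hB U a b ha hab
    refine le_antisymm (Pool.Agent.Q43.LC.dimH_le_one _) ?_
    rw [← two A B hA hB (fun m => if m ∈ U then 0 else 7)
      ⟨7, fun m => by split_ifs <;> omega⟩ a b ha hab]
    refine dimH_mono ?_
    have key : ∀ (n m : ℕ), (n + if m ∈ U then 0 else 7).Prime → (n.Prime ↔ m ∈ U) := by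
      intro n m h
      by_cases hU : m ∈ U
      · rw [if_pos hU, add_zero] at h
        exact ⟨fun _ => hU, fun _ => h⟩
      · rw [if_neg hU] at h
        exact ⟨fun hp => absurd hp (not_prime_of h), fun h => absurd h hU⟩
    rintro y ⟨h1, h2, M, h3, h4⟩
    exact ⟨h1, h2, M, fun m hm hge => key _ _ (h3 m hm hge), fun m hm hge => key _ _ (h4 m hm hge)⟩
  refine ⟨one, two, fun U g => ?_⟩
  have hc1 : PosC1 (fun _ : ℝ => 1) := ⟨contDiffOn_const, fun _ _ => one_pos⟩
  have hs := soft (J := Set.Ioi 0) (v := fun m y => if m ∈ S then P y m else R y m) (K₀ := 2)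
    (S := S ∪ T) (W := fun m => {n | n.Prime ↔ m ∈ U}) isOpen_Ioi (fun m => ?_)
    (fun m y hy => ?_) (fun m hm => ?_) (fun a b hab hsub hcount => ?_) g
  · filter_upwards [hs] with y hy hy0 K
    obtain ⟨k, hk, h⟩ := hy hy0 K
    refine ⟨k, hk, fun m hm h1 h2 => ?_, fun m hm h1 h2 => ?_⟩
    · have h3 := h m (Or.inl hm) h1 h2
      simp only [if_pos hm] at h3
      exact h3
    · have h3 := h m (Or.inr hm) h1 h2
      simp only [if_neg (fun h => Set.disjoint_left.1 hST h hm : m ∉ S)] at h3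
      exact h3
  · by_cases hm : m ∈ S
    · simp only [if_pos hm]
      exact (P_cont m).continuousOn
    · simp only [if_neg hm]
      exact (R_cont m).continuousOn
  · by_cases hm : m ∈ S
    · simp only [if_pos hm]
      exact P_nonneg hy m
    · simp only [if_neg hm]
      exact R_nonneg hy m
  · obtain ⟨l, rfl⟩ := Nat.exists_eq_add_of_le' hm
    have hinj : ∀ x ∈ Set.Ioi (0 : ℝ), ∀ y ∈ Set.Ioi (0 : ℝ),
        (if l + 2 ∈ S then P x (l + 2) else R x (l + 2)) =
          (if l + 2 ∈ S then P y (l + 2) else R y (l + 2)) → x = y := by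
      have hlt : ∀ x ∈ Set.Ioi (0 : ℝ), ∀ y, x < y →
          (if l + 2 ∈ S then P x (l + 2) else R x (l + 2)) <
            (if l + 2 ∈ S then P y (l + 2) else R y (l + 2)) := by
        intro x hx y hxy
        by_cases hm : l + 2 ∈ S
        · simp only [if_pos hm]
          exact (P_mono hx hxy (l + 1)).2.2
        · simp only [if_neg hm]
          exact (R_mono hx hxy l).2.2
      intro x hx y hy h
      rcases lt_trichotomy x y with h1 | h1 | h1
      · exact absurd h (hlt x hx y h1).ne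
      · exact h1
      · exact absurd h.symm (hlt y hy x h1).ne
    have : {x ∈ Set.Ioi (0 : ℝ) | ∃ n : ℕ, (if l + 2 ∈ S then P x (l + 2) else R x (l + 2)) = n} ⊆
        ⋃ n : ℕ, {x ∈ Set.Ioi (0 : ℝ) | (if l + 2 ∈ S then P x (l + 2) else R x (l + 2)) = n} := by
      rintro x ⟨h1, n, h2⟩
      exact Set.mem_iUnion.mpr ⟨n, h1, h2⟩
    refine (Set.countable_iUnion fun n => Set.Subsingleton.countable ?_).mono this
    rintro x ⟨hx1, hx2⟩ y ⟨hy1, hy2⟩
    exact hinj x hx1 y hy1 (hx2.trans hy2.symm)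
  · have ha : 0 ≤ a := by
      by_contra hcon
      push Not at hcon
      obtain ⟨z, hz1, hz2⟩ := exists_between (lt_min hab hcon)
      have := hsub ⟨hz1, hz2.trans_le (min_le_left _ _)⟩
      exact absurd (hz2.trans_le (min_le_right _ _)) (not_lt.mpr (le_of_lt this))
    have h1 := one (fun _ => 1) (fun _ => 1) hc1 hc1 U a b ha hab
    refine one_ne_zero (h1.symm.trans (Set.Countable.dimH_zero (hcount.mono ?_)))
    rintro y ⟨g1, g2, M, g3, g4⟩
    refine ⟨g1, g2, M, fun m hm hge => ?_⟩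
    show (⌊if m ∈ S then P y m else R y m⌋₊).Prime ↔ m ∈ U
    rcases hm with hm | hm
    · have := g3 m hm hge
      simp only [one_mul] at this
      simp only [if_pos hm]
      exact this
    · have := g4 m hm hge
      simp only [one_mul] at this
      simp only [if_neg (fun h => Set.disjoint_left.1 hST h hm : m ∉ S)]
      exact this

end Pool.Agent.Results.MP_927e73_nt.PrescribedIndices
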